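import Pool.Agent.helper65.GD.All

set_option autoImplicit false

/-!
# Goodman's conjecture for multivalent close-to-convex functions

`N2b689f5b.IsPValent`, `N2b689f5b.IsNormalized`, `N2b689f5b.coeff`, `N2b689f5b.goodmanBound` are the definitions of
the problem; `‖coeff f n‖ ≤ goodmanBound f p n` is Goodman's inequality. It is proved, for all `p` and all `n > p`,
for the `p`-valent close-to-convex functions (Livingston's class `K(p)`), in particular for the `p`-valent starlike
functions, and for all locally uniform limits of such functions.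

Proof: see `Pool.Agent.helper65.GD.Spec`, `SpecB`, `SpecC`, `SpecD`.
-/

namespace Pool.Agent.Results.MP_ea335c_an.CloseToConvexFunctions

open N2b689f5b Filter

/-- `F` is a `p`-valent starlike function: it is `p`-valent, `F(0) = 0` and `Re (z F'(z) / F(z)) > 0` in some annulus
`ρ < |z| < 1`. -/
structure IsPStarlike (F : ℂ → ℂ) (p : ℕ) : Prop where
  pvalent : IsPValent F p
  normalized : IsNormalized F
  starlike : ∃ ρ : ℝ, ρ < 1 ∧ ∀ z : ℂ, ρ < ‖z‖ → ‖z‖ < 1 → 0 < (z * deriv F z / F z).re

/-- `f` is in the class `K(p)`: it is analytic in the unit disc and there is a `p`-valent starlike function `F` with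
`Re (z f'(z) / F(z)) > 0` in some annulus `ρ < |z| < 1`. -/
structure IsPCloseToConvex (f : ℂ → ℂ) (p : ℕ) : Prop where
  analytic : AnalyticOn ℂ f (Metric.ball 0 1)
  convex : ∃ F : ℂ → ℂ, IsPStarlike F p ∧
    ∃ ρ : ℝ, ρ < 1 ∧ ∀ z : ℂ, ρ < ‖z‖ → ‖z‖ < 1 → 0 < (z * deriv f z / F z).re

theorem main (f : ℂ → ℂ) (p : ℕ) (hf : IsPCloseToConvex f p) (n : ℕ) (hn : p < n) :
    ‖coeff f n‖ ≤ goodmanBound f p n := by
  obtain ⟨ha, F, hF, hpos⟩ := hf
  have hS : Pool.Agent.GD.Starlike F p := Pool.Agent.GD.stp_holds F p hF.pvalent hF.normalized hF.starlike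
  exact Pool.Agent.GD.fnk_holds f F p n ⟨ha.differentiableOn, hS, hpos⟩ hn

/-- **Goodman's inequality for multivalent close-to-convex functions.** -/
theorem result :
    -- the class `K(p)`
    (∀ (f : ℂ → ℂ) (p : ℕ), IsPCloseToConvex f p → ∀ n : ℕ, p < n → ‖coeff f n‖ ≤ goodmanBound f p n) ∧
    -- in particular the `p`-valent starlike functions
    (∀ (f : ℂ → ℂ) (p : ℕ), IsPStarlike f p → ∀ n : ℕ, p < n → ‖coeff f n‖ ≤ goodmanBound f p n) ∧
    -- locally uniform limits
    (∀ (f : ℂ → ℂ) (g : ℕ → ℂ → ℂ) (p : ℕ), (∀ t, IsPCloseToConvex (g t) p) →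
      TendstoLocallyUniformlyOn g f atTop (Metric.ball 0 1) →
      ∀ n : ℕ, p < n → ‖coeff f n‖ ≤ goodmanBound f p n) := by
  refine ⟨main, ?_, ?_⟩
  · intro f p hf n hn
    exact main f p ⟨hf.pvalent.analyticOn, f, hf, hf.starlike⟩ n hn
  · intro f g p hg hgf n hn
    have hd : ∀ t, DifferentiableOn ℂ (g t) (Metric.ball 0 1) := fun t => (hg t).analytic.differentiableOn
    have hit : ∀ m : ℕ, TendstoLocallyUniformlyOn (fun t => iteratedDeriv m (g t)) (iteratedDeriv m f) atTop
        (Metric.ball 0 1) ∧ ∀ t, DifferentiableOn ℂ (iteratedDeriv m (g t)) (Metric.ball 0 1) := by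
      intro m
      induction m with
      | zero =>
        simp only [iteratedDeriv_zero]
        exact ⟨hgf, hd⟩
      | succ m ih =>
        simp only [iteratedDeriv_succ]
        exact ⟨ih.1.deriv (Eventually.of_forall ih.2) Metric.isOpen_ball, fun t => (ih.2 t).deriv Metric.isOpen_ball⟩
    have hc : ∀ m : ℕ, Tendsto (fun t => coeff (g t) m) atTop (nhds (coeff f m)) := by
      intro m
      have h0 : (0 : ℂ) ∈ Metric.ball (0 : ℂ) 1 := Metric.mem_ball_self one_pos
      have h1 : Tendsto (fun t => iteratedDeriv m (g t) 0) atTop (nhds (iteratedDeriv m f 0)) :=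
        (hit m).1.tendsto_at h0
      exact h1.div_const _
    refine le_of_tendsto_of_tendsto (hc n).norm ?_ (Eventually.of_forall fun t => main (g t) p (hg t) n hn)
    unfold goodmanBound
    exact tendsto_finsetSum _ fun j _ => (hc j).norm.const_mul _

end Pool.Agent.Results.MP_ea335c_an.CloseToConvexFunctions
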