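import Pool.Agent.helper65.GH.AllG

set_option autoImplicit false

/-!
# Goodman's conjecture for polynomials of Bazilevic functions of type 1/2

`N2b689f5b.coeff`, `N2b689f5b.goodmanBound` are the definitions of the problem; `‖coeff f n‖ ≤ goodmanBound f p n` is
Goodman's inequality. It is proved, for all `p` and all `n > p`, for `f = P ∘ φ`, where `φ(z²) = F(z)²` with an odd
close-to-convex function `F` and `P` is any polynomial of degree at most `p`. It is also proved for all `f` such that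
`f(z²)` is obtained from a constant by `2 p` half steps `h ↦ k`, `z k'(z) = Q(z) G(z) h(z)`, where `Re Q > 0`, `Q` is even and
`G` is odd and starlike (`Q` and `G` may change from step to step, and `k(0) = 0` after an odd number of steps).

Proof: see the docstrings in `Pool.Agent.helper65.GF.SpecG` (and `Pool.Agent.helper65.GD.SpecF`, `SpecE`).
-/

namespace Pool.Agent.Results.MP_ea335c_an.PolynomialsOfBazilevic

open N2b689f5b

/-- `g` is an odd function which is starlike in the unit disc with respect to `0` (not normalised): `g(-z) = -g(z)`,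
`g'(0) ≠ 0` and `Re (z g'(z)/g(z)) > 0` for `0 < |z| < 1`. -/
structure IsOddStarlike (g : ℂ → ℂ) : Prop where
  analytic : AnalyticOn ℂ g (Metric.ball 0 1)
  odd : ∀ z ∈ Metric.ball (0 : ℂ) 1, g (-z) = -g z
  deriv_ne : deriv g 0 ≠ 0
  pos : ∀ z ∈ Metric.ball (0 : ℂ) 1, z ≠ 0 → 0 < (z * deriv g z / g z).re

/-- `F` is an odd close-to-convex function (not normalised): `F(-z) = -F(z)`, and `Re (c z F'(z)/g(z)) > 0` for
`0 < |z| < 1`, for some odd starlike `g` and some constant `c`. -/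
structure IsOddCloseToConvex (F : ℂ → ℂ) : Prop where
  analytic : AnalyticOn ℂ F (Metric.ball 0 1)
  odd : ∀ z ∈ Metric.ball (0 : ℂ) 1, F (-z) = -F z
  pos : ∃ (g : ℂ → ℂ) (c : ℂ), IsOddStarlike g ∧
    ∀ z ∈ Metric.ball (0 : ℂ) 1, z ≠ 0 → 0 < (c * (z * deriv F z / g z)).re

/-- Bazilevic functions of type `1/2` (not normalised): `φ(z²) = F(z)²` with an odd close-to-convex function `F`. -/
structure IsBazilevic (φ : ℂ → ℂ) : Prop where
  analytic : AnalyticOn ℂ φ (Metric.ball 0 1)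
  half : ∃ F : ℂ → ℂ, IsOddCloseToConvex F ∧ ∀ z ∈ Metric.ball (0 : ℂ) 1, φ (z ^ 2) = F z ^ 2

/-- The functions obtained from constants by `s` half steps `h ↦ f`: `z f'(z) = Q(z) G(z) h(z)`, `Q` even with
`Re Q > 0`, `G` odd starlike, and `f(0) = 0` after an odd number of steps. -/
inductive HalfSteps : ℕ → (ℂ → ℂ) → Prop
  | const (f : ℂ → ℂ) (a : ℂ) (hf : ∀ z ∈ Metric.ball (0 : ℂ) 1, f z = a) : HalfSteps 0 f
  | step (s : ℕ) (f h Q G : ℂ → ℂ) (hh : HalfSteps s h) (hG : IsOddStarlike G)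
      (hQ : AnalyticOn ℂ Q (Metric.ball 0 1)) (hpos : ∀ z ∈ Metric.ball (0 : ℂ) 1, 0 < (Q z).re)
      (heven : ∀ z ∈ Metric.ball (0 : ℂ) 1, Q (-z) = Q z) (hf : AnalyticOn ℂ f (Metric.ball 0 1))
      (hzero : Even s → f 0 = 0) (he : ∀ z ∈ Metric.ball (0 : ℂ) 1, z * deriv f z = Q z * (G z * h z)) :
      HalfSteps (s + 1) f

lemma odd_zero (g : ℂ → ℂ) (h : ∀ z ∈ Metric.ball (0 : ℂ) 1, g (-z) = -g z) : g 0 = 0 := by
  have := h 0 (Metric.mem_ball_self one_pos)
  rw [neg_zero] at this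
  linear_combination (1 / 2 : ℂ) * this

lemma oddStarl (g : ℂ → ℂ) (hg : IsOddStarlike g) : Pool.Agent.GD.OddStarl g :=
  ⟨⟨hg.analytic.differentiableOn, odd_zero g hg.odd, hg.deriv_ne, hg.pos⟩, hg.odd⟩

lemma baz (φ : ℂ → ℂ) (h : IsBazilevic φ) : Pool.Agent.GD.Baz φ := by
  obtain ⟨ha, F, ⟨hF, hodd, g, c, hg, hpos⟩, he⟩ := h
  exact ⟨ha.differentiableOn, F, g, c, hF.differentiableOn, hodd, oddStarl g hg, hpos, he⟩

lemma halfSteps (s : ℕ) (f : ℂ → ℂ) (hf : HalfSteps s f) :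
    (∀ p, s = 2 * p → Pool.Agent.GD.InvE p f) ∧ (∀ p, s = 2 * p + 1 → Pool.Agent.GD.InvO p f) := by
  induction hf with
  | const f a hf =>
    refine ⟨fun p hp => ?_, fun p hp => by omega⟩
    obtain rfl : p = 0 := by omega
    exact Pool.Agent.GD.inve_congr 0 _ f (Pool.Agent.GD.inve_const a)
      ((differentiableOn_const a).congr hf) hf
  | step s f h Q G _ hG hQ hpos heven hf hzero he ih =>
    refine ⟨fun p hp => ?_, fun p hp => ?_⟩
    · obtain ⟨q, rfl⟩ : ∃ q, p = q + 1 := ⟨p - 1, by omega⟩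
      exact Pool.Agent.GD.h_YSO q G h f Q (oddStarl G hG) (ih.2 q (by omega)) hf.differentiableOn
        hQ.differentiableOn hpos heven he
    · exact Pool.Agent.GD.h_YSE p G h f Q (oddStarl G hG) (ih.1 p (by omega)) hf.differentiableOn
        (hzero ⟨p, by omega⟩) hQ.differentiableOn hpos heven he

/-- **Goodman's inequality for polynomials of Bazilevic functions of type 1/2.** -/
theorem result :
    -- polynomials of degree at most `p` of a Bazilevic function `φ` of type `1/2`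
    (∀ φ : ℂ → ℂ, IsBazilevic φ → ∀ (p : ℕ) (P : Polynomial ℂ), P.natDegree ≤ p →
      ∀ n : ℕ, p < n → ‖coeff (fun z => P.eval (φ z)) n‖ ≤ goodmanBound (fun z => P.eval (φ z)) p n) ∧
    -- all `f` such that `f(z²)` is obtained by `2 p` half steps
    (∀ (p : ℕ) (f : ℂ → ℂ), AnalyticOn ℂ f (Metric.ball 0 1) → HalfSteps (2 * p) (fun z => f (z ^ 2)) →
      ∀ n : ℕ, p < n → ‖coeff f n‖ ≤ goodmanBound f p n) := by
  refine ⟨?_, ?_⟩
  · intro φ hφ p P hP n hn
    exact Pool.Agent.GD.YFI Pool.Agent.GD.h_XS0 Pool.Agent.GD.h_YSE Pool.Agent.GD.h_YSO Pool.Agent.GD.h_YGO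
      φ (baz φ hφ) p P hP n hn
  · intro p f hfa hf n hn
    exact Pool.Agent.GD.h_YGO p f hfa.differentiableOn ((halfSteps _ _ hf).1 p rfl) n hn

end Pool.Agent.Results.MP_ea335c_an.PolynomialsOfBazilevic
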