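import Pool.Agent.helper65.GF.AllF

set_option autoImplicit false

/-!
# Goodman's conjecture for polynomials of close-to-convex functions

`N2b689f5b.coeff`, `N2b689f5b.goodmanBound` are the definitions of the problem; `‖coeff f n‖ ≤ goodmanBound f p n` is
Goodman's inequality. It is proved, for all `p` and all `n > p`, for `f = P ∘ φ`, where `φ` is any close-to-convex function
(in Kaplan's sense, without normalisation) and `P` is any polynomial of degree at most `p`. It is also proved for all
functions obtained from constants by the integrations `f' = φ' h`, `φ` close-to-convex (`φ` may change from step to step),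
and the multiplications by `z / ((1 - x z) (1 - y z))`, which both raise `p` by one, and by the steps `F ↦ f`,
`z f'(z) = Q(z) F(z)`, `Re Q > 0`, which keep `p`.

Proof: see the docstrings in `Pool.Agent.helper65.GD.SpecF` (and `Pool.Agent.helper65.GD.SpecE`, `NUM2`, `MUL`, `MUF`).
-/

namespace Pool.Agent.Results.MP_ea335c_an.PolynomialsOfCloseToConvex

open N2b689f5b

/-- `g` is starlike in the unit disc with respect to `g(0) = 0` (not normalised): `g'(0) ≠ 0` and `Re (z g'(z)/g(z)) > 0`
for `0 < |z| < 1`. -/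
structure IsStarlike (g : ℂ → ℂ) : Prop where
  analytic : AnalyticOn ℂ g (Metric.ball 0 1)
  map_zero : g 0 = 0
  deriv_ne : deriv g 0 ≠ 0
  pos : ∀ z ∈ Metric.ball (0 : ℂ) 1, z ≠ 0 → 0 < (z * deriv g z / g z).re

/-- `φ` is close-to-convex in the unit disc (not normalised): `Re (c z φ'(z)/g(z)) > 0` for `0 < |z| < 1`, for some starlike
`g` and some constant `c`. -/
structure IsCloseToConvex (φ : ℂ → ℂ) : Prop where
  analytic : AnalyticOn ℂ φ (Metric.ball 0 1)
  pos : ∃ (g : ℂ → ℂ) (c : ℂ), IsStarlike g ∧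
    ∀ z ∈ Metric.ball (0 : ℂ) 1, z ≠ 0 → 0 < (c * (z * deriv φ z / g z)).re

/-- The functions obtained from constants by finitely many integrations `f' = φ' h`, `φ` close-to-convex, multiplications by
functions `z / ((1 - x z) (1 - y z))`, `|x| ≤ 1`, `|y| ≤ 1`, and steps `F ↦ f`, `z f'(z) = Q(z) F(z)`, `Re Q > 0` (in any
order); `p` is the number of the integrations and multiplications, and `φ`, `x`, `y`, `Q` may change from step to step. -/
inductive Tower : ℕ → (ℂ → ℂ) → Prop
  | const (a : ℂ) : Tower 0 (fun _ => a)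
  | int (p : ℕ) (φ f h : ℂ → ℂ) (hφ : IsCloseToConvex φ) (hh : Tower p h) (hf : AnalyticOn ℂ f (Metric.ball 0 1))
      (he : ∀ z ∈ Metric.ball (0 : ℂ) 1, deriv f z = deriv φ z * h z) : Tower (p + 1) f
  | mul (p : ℕ) (h : ℂ → ℂ) (x y : ℂ) (hh : Tower p h) (hx : ‖x‖ ≤ 1) (hy : ‖y‖ ≤ 1) :
      Tower (p + 1) (fun z => z * h z / ((1 - x * z) * (1 - y * z)))
  | step (p : ℕ) (f F Q : ℂ → ℂ) (hF : Tower p F) (hf : AnalyticOn ℂ f (Metric.ball 0 1))
      (hQ : AnalyticOn ℂ Q (Metric.ball 0 1)) (hpos : ∀ z ∈ Metric.ball (0 : ℂ) 1, 0 < (Q z).re)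
      (he : ∀ z ∈ Metric.ball (0 : ℂ) 1, z * deriv f z = Q z * F z) : Tower p f

lemma ctc (φ : ℂ → ℂ) (h : IsCloseToConvex φ) : Pool.Agent.GD.Ctc φ := by
  obtain ⟨ha, g, c, hg, hpos⟩ := h
  exact ⟨ha.differentiableOn, g, c, ⟨hg.analytic.differentiableOn, hg.map_zero, hg.deriv_ne, hg.pos⟩, hpos⟩

/-- **Goodman's inequality for polynomials of close-to-convex functions.** -/
theorem result :
    -- polynomials of degree at most `p` of a close-to-convex function `φ`
    (∀ φ : ℂ → ℂ, IsCloseToConvex φ → ∀ (p : ℕ) (P : Polynomial ℂ), P.natDegree ≤ p →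
      ∀ n : ℕ, p < n → ‖coeff (fun z => P.eval (φ z)) n‖ ≤ goodmanBound (fun z => P.eval (φ z)) p n) ∧
    -- all functions of the tower
    (∀ (p : ℕ) (f : ℂ → ℂ), Tower p f → ∀ n : ℕ, p < n → ‖coeff f n‖ ≤ goodmanBound f p n) := by
  refine ⟨?_, ?_⟩
  · intro φ hφ p P hP n hn
    exact Pool.Agent.GD.ITG p _ (Pool.Agent.GD.inv_ctc_poly φ (ctc φ hφ) p P hP) n hn
  · intro p f hf n hn
    have h : Pool.Agent.GD.Inv p f := by
      clear hn
      induction hf with
      | const a => exact Pool.Agent.GD.inv_const a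
      | int p φ f h hφ _ hf he ih =>
        exact Pool.Agent.GD.inv_ctc_int p φ f h (ctc φ hφ) ih hf.differentiableOn he
      | mul p h x y _ hx hy ih => exact Pool.Agent.GD.MUF x y hx hy p h ih
      | step p f F Q _ hf hQ hpos he ih =>
        exact Pool.Agent.GD.inv_step p f F Q ih hf.differentiableOn hQ.differentiableOn hpos he
    exact Pool.Agent.GD.ITG p _ h n hn

end Pool.Agent.Results.MP_ea335c_an.PolynomialsOfCloseToConvex
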