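import Pool.Agent.helper65.GD.AllE

set_option autoImplicit false

/-!
# Goodman's conjecture for polynomials of spirallike functions

`N2b689f5b.coeff`, `N2b689f5b.goodmanBound` are the definitions of the problem; `‖coeff f n‖ ≤ goodmanBound f p n` is
Goodman's inequality. It is proved, for all `p` and all `n > p`, for `f = P ∘ φ`, where `φ` is spirallike (for example
starlike univalent) and `P` is any polynomial of degree at most `p`; for all `f` with `z f'(z) = Q(z) R(φ(z))`, `Re Q > 0`,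
`deg R ≤ p`; and for all functions obtained from these by repeating the last step.

Proof: see `Pool.Agent.helper65.GD.SpecE`.
-/

namespace Pool.Agent.Results.MP_ea335c_an.PolynomialsOfSpirallike

open N2b689f5b

/-- `φ` is spirallike of type `γ` in the unit disc (starlike univalent for `γ = 0`). -/
structure IsSpirallike (φ : ℂ → ℂ) (γ : ℝ) : Prop where
  analytic : AnalyticOn ℂ φ (Metric.ball 0 1)
  map_zero : φ 0 = 0
  deriv_ne : deriv φ 0 ≠ 0
  angle : |γ| < Real.pi / 2
  spiral : ∀ z ∈ Metric.ball (0 : ℂ) 1, z ≠ 0 → 0 < (Complex.exp (γ * Complex.I) * (z * deriv φ z / φ z)).re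

/-- The functions `P ∘ φ`, `deg P ≤ p`, and all functions obtained from them by finitely many steps `F ↦ f`,
`z f'(z) = Q(z) F(z)`, `Re Q > 0` (the functions `Q` are arbitrary and may change from step to step). -/
inductive Iterated (φ : ℂ → ℂ) (p : ℕ) : (ℂ → ℂ) → Prop
  | poly (P : Polynomial ℂ) (hP : P.natDegree ≤ p) : Iterated φ p (fun z => P.eval (φ z))
  | step (f F Q : ℂ → ℂ) (hF : Iterated φ p F) (hf : AnalyticOn ℂ f (Metric.ball 0 1))
      (hQ : AnalyticOn ℂ Q (Metric.ball 0 1)) (hpos : ∀ z ∈ Metric.ball (0 : ℂ) 1, 0 < (Q z).re)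
      (he : ∀ z ∈ Metric.ball (0 : ℂ) 1, z * deriv f z = Q z * F z) : Iterated φ p f

theorem main (φ : ℂ → ℂ) (γ : ℝ) (hφ : IsSpirallike φ γ) (p : ℕ) (f : ℂ → ℂ) (hf : Iterated φ p f) :
    Pool.Agent.GD.Inv p f := by
  induction hf with
  | poly P hP =>
    exact Pool.Agent.GD.inv_poly φ γ P p
      ⟨hφ.analytic.differentiableOn, hφ.map_zero, hφ.deriv_ne, hφ.angle, hφ.spiral⟩ hP
  | step f F Q _ hf hQ hpos he ih =>
    exact Pool.Agent.GD.inv_step p f F Q ih hf.differentiableOn hQ.differentiableOn hpos he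

/-- **Goodman's inequality for polynomials of spirallike functions.** -/
theorem result (φ : ℂ → ℂ) (γ : ℝ) (hφ : IsSpirallike φ γ) (p : ℕ) :
    -- polynomials of degree at most `p` of `φ`
    (∀ P : Polynomial ℂ, P.natDegree ≤ p → ∀ n : ℕ, p < n →
      ‖coeff (fun z => P.eval (φ z)) n‖ ≤ goodmanBound (fun z => P.eval (φ z)) p n) ∧
    -- the functions `f` with `z f'(z) = Q(z) R(φ(z))`
    (∀ (f Q : ℂ → ℂ) (R : Polynomial ℂ), AnalyticOn ℂ f (Metric.ball 0 1) → AnalyticOn ℂ Q (Metric.ball 0 1) →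
      (∀ z ∈ Metric.ball (0 : ℂ) 1, 0 < (Q z).re) → R.natDegree ≤ p →
      (∀ z ∈ Metric.ball (0 : ℂ) 1, z * deriv f z = Q z * R.eval (φ z)) →
      ∀ n : ℕ, p < n → ‖coeff f n‖ ≤ goodmanBound f p n) ∧
    -- all functions obtained by repeating this step
    (∀ f : ℂ → ℂ, Iterated φ p f → ∀ n : ℕ, p < n → ‖coeff f n‖ ≤ goodmanBound f p n) := by
  refine ⟨?_, ?_, ?_⟩
  · intro P hP n hn
    exact Pool.Agent.GD.ITG p _ (main φ γ hφ p _ (Iterated.poly P hP)) n hn
  · intro f Q R hf hQ hpos hR he n hn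
    exact Pool.Agent.GD.ITG p _ (main φ γ hφ p f
      (Iterated.step f _ Q (Iterated.poly R hR) hf hQ hpos he)) n hn
  · intro f hf n hn
    exact Pool.Agent.GD.ITG p _ (main φ γ hφ p f hf) n hn

end Pool.Agent.Results.MP_ea335c_an.PolynomialsOfSpirallike
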